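import Mathlib
import Pool.Agent.TH922.C8_DAT
import Pool.Agent.TH551.C8_XM1
import Pool.Agent.TH202.FlSeq
import Pool.Agent.TH202.NegB
import Pool.Agent.TH246.C8_POS
import Pool.Agent.Y181.WLC
import Pool.Agent.R888.Moi.Can
import Pool.Agent.R888.Moi.Main

/-!
# Generalized klt pairs without log terminal models

There are a projective (hence compact Kähler) threefold `X`, a prime divisor `S` on `X` and nef
classes `β`, `N` on `X` such that, for all real `0 < ε < 1/3`, the generalized pair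
`(X, (2/3 + ε) S + β)` is gklt, `K_X + (2/3 + ε) S + β = N + ε S` is pseudo-effective, and the pair
has no log terminal model, not even a weak log canonical model, neither among projective varieties
nor among normal Moishezon spaces.
-/

set_option autoImplicit false

namespace Pool.Agent.Results.MP_c8c12f_ag.NoLogTerminalModel

open Pool.Agent.H436R3.Fol Pool.Agent.TH202 Pool.Agent.Y181 Pool.Agent.R888.Moi

/-- **Generalized klt pairs without log terminal models.** -/
theorem result : ∃ (K : Type) (_ : Field K) (_ : Algebra ℂ K) (_ : Algebra.EssFiniteType ℂ K)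
    (T : Foliation K 3) (_ : T.space = ⊤) (X : Model K) (s : DVal K) (S β N : DVal K → ℝ),
    -- the canonical divisor has a multiplicity at every divisorial valuation
    (∀ v : DVal K, (∃ R : Subalgebra ℂ K, R.FG ∧ IsLocalRing' R v) → ∃ n : ℤ, IsCanOrd T v n) ∧
    -- `S` is a prime divisor on `X`, with valuation `s`, and it is Cartier over the reals
    (IsRCar X S ∧ IsPrimeOn X s ∧ S s = 1 ∧ ∀ w, IsPrimeOn X w → S w ≠ 0 → Same w s) ∧
    -- `β` and `N` are nef on `X`
    (IsNef X β ∧ IsNef X N) ∧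
    ∀ ε : ℝ, 0 < ε → ε < 1 / 3 →
      -- the pair is gklt, and the adjoint class is pseudo-effective
      IsGklt T X ((2 / 3 + ε) • S) β (N + ε • S) ∧ IsPsef X (N + ε • S) ∧
      -- there is no projective model
      (∀ (Y : Model K) (E : DVal K → ℝ),
        ¬ IsWeakLCModel T X ((2 / 3 + ε) • S) β (N + ε • S) Y E) ∧
      -- there is no Moishezon model `Y = Y' / Gal (L / K)`
      ∀ (L : Type) [Field L] [Algebra ℂ L] [Algebra K L] [IsScalarTower ℂ K L]
        [FiniteDimensional K L] (Y : CompleteVar L) (E : DVal K → ℝ),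
        ¬ IsWeakModelBelow T X ((2 / 3 + ε) • S) β (N + ε • S) Y E := by
  obtain ⟨K, iF, iA, iE, ⟨d⟩⟩ := Pool.Agent.TH922.C8_DAT.exists_dat
  obtain ⟨T, hT, hTs⟩ := Pool.Agent.TH922.C8_DAT.exists_fol d
  have h := Pool.Agent.TH551.C8_XM1.xi_alg d
  obtain ⟨s, -, -, -⟩ := exists_sq2 d
  obtain ⟨vS, hvS, hvc, huniq⟩ := Pool.Agent.TH189.C8_VS.exists_vS d
  have hbet := Pool.Agent.TH246.C8_POS.bet_nef h s
  have haS : vS.ord d.a = 0 := by
    have := hvS.1 (MvPolynomial.X 0) (MvPolynomial.X_ne_zero _)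
    rwa [MvPolynomial.aeval_X] at this
  have hSbS : Sb d vS = 1 := by
    have h1 : mn d vS = 0 := by
      rw [mn, haS, Int.cast_zero]
      exact max_eq_left (min_le_left _ _)
    rw [Sb, h1, hvc, ps]
    simp
  refine ⟨K, iF, iA, iE, T, hTs, Xd d h, vS, Sb d, bt s, bet s + pr d, exists_can d T hT,
    ⟨Pool.Agent.TH202.rcar_Sb d h, b_step s vS hvS _ (bet s) hbet.1 (fun _ => rfl), hSbS,
      fun w hw h0 => ?_⟩, ⟨Pool.Agent.TH246.C8_POS.bt_nef h s, ?_⟩, fun ε hε hε' => ?_⟩
  · exact huniq w ((Pool.Agent.TH796.C8_XM2.prime_X d h T hT w hw).2 h0)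
  · refine ⟨hbet.1.add (rcar_of_prin (pr_mem d)), fun δ hδ => ?_⟩
    obtain ⟨F, hF, P, hP, hFP⟩ := hbet.2 δ hδ
    refine ⟨F, hF, P + pr d, (Prin K).add_mem hP (pr_mem d), fun v => ?_⟩
    simp only [Pi.add_apply]
    linarith [hFP v]
  · have hD : bet s + pr d + ε • Sb d = Dd s ε := by
      funext v
      rw [Pool.Agent.TH202.Dd_eq]
      simp only [Pi.add_apply, Pi.smul_apply, smul_eq_mul]
      ring
    have hB : (2 / 3 + ε) • Sb d = Bd d ε := rfl
    rw [hD, hB]
    exact ⟨Pool.Agent.TH246.C8_POS.is_gklt h s T hT hε hε', Pool.Agent.TH246.C8_POS.is_psef h s hε,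
      fun Y E => no_model_proj h s T hT hε Y E,
      fun L _ _ _ _ _ Y E => no_model' h s T hT hε L Y E⟩

end Pool.Agent.Results.MP_c8c12f_ag.NoLogTerminalModel
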